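import Pool.Agent.Helper35.Boot.Defs

/-!
# MP_9c00c0_co: the inequality without logarithm on many scales.  Statements
-/

set_option autoImplicit false

open Finset SimpleGraph Pool.Agent.Helper35.Boot

namespace Pool.Agent.Helper33.MS

universe v

/-- (P1) the bound by scales, with an edge for every scale. -/
def GoalP1 : Prop := ∀ (W : Type v) [Finite W] (H : SimpleGraph W), 3 ≤ H.edgeSet.ncard →
  ∃ C : ℝ, 0 ≤ C ∧ ∀ ε : ℕ → Sym2 W, (∀ i, ε i ∈ H.edgeSet) → ∀ n : ℕ,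
    (maxRunTime H n : ℝ) ≤ C * ∑ i ∈ Finset.range (Nat.log 2 n + 1), ((i : ℝ) + 1) * 2 ^ i *
      extremalNumber (n / 2 ^ i + 1) (H.deleteEdges {ε i})

/-- (P2) the lower bound for the Turán numbers of graphs with a cycle. -/
def GoalP2 : Prop := ∀ (W : Type v) [Fintype W] (F : SimpleGraph W), ¬ F.IsAcyclic →
  ∀ q j : ℕ, 1 ≤ q → Fintype.card W * q ≤ j →
    (2 : ℝ) ^ j * 2 ^ q ≤ 8 * extremalNumber (2 ^ j) F

open scoped Classical in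
/-- (P3) records. -/
def GoalP3 : Prop := ∀ (b : ℕ → ℝ) (A : ℝ) (K : ℕ), 1 ≤ K → (∀ j, 0 < b j) →
  (∀ j, b (j + 1) ≤ A * b j) → (∀ j, (2 : ℝ) ^ j * 2 ^ (j / K) ≤ 16 * b j) →
  ∃ C δ : ℝ, 0 < C ∧ 0 < δ ∧ ∃ J₀ : ℕ, ∀ J : ℕ, J₀ ≤ J → δ * J ≤
    ((Finset.range J).filter fun j =>
      ∑ i ∈ Finset.range (j + 1), ((i : ℝ) + 1) * 2 ^ i * b (j - i) ≤ C * b j).card

/-- (P4) the theorem. -/
def GoalP4 : Prop := ∀ (W : Type v) [Finite W] (H : SimpleGraph W), H.Connected →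
  3 ≤ H.edgeSet.ncard → ∃ C δ : ℝ, 0 < δ ∧ ∃ J₀ : ℕ, ∀ J : ℕ, J₀ ≤ J → δ * J ≤
    ({j : ℕ | j < J ∧ ∀ n : ℕ, 2 ^ j ≤ n → n < 2 ^ (j + 1) →
      ∀ e ∈ H.edgeSet, (maxRunTime H n : ℝ) ≤
        C * extremalNumber n (H.deleteEdges {e})} : Set ℕ).ncard

end Pool.Agent.Helper33.MS
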