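import Pool.Agent.Helper33.MS.Goals
import Pool.Agent.Helper35.Boot.Multi

/-!
# MP_9c00c0_co: the bound by scales, with an edge for every scale
-/

set_option autoImplicit false

open SimpleGraph Pool.Agent.Helper35.Boot

namespace Pool.Agent.Helper33.MS

universe v

theorem P1 : GoalP1.{v} := by
  intro W _ H hH
  obtain ⟨C, h0, h⟩ := general_bound_multi H hH
  exact ⟨C, h0, fun ε hε n => h n ε hε⟩

end Pool.Agent.Helper33.MS
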