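import Pool.Agent.Helper33.MS.Goals
import Pool.Agent.Helper33.Boot.Result
import Pool.Agent.Helper35.Boot.Turan3

/-!
# MP_9c00c0_co: the inequality without logarithm on many scales.  Assembly
-/

set_option autoImplicit false

open Finset SimpleGraph Pool.Agent.Helper35.Boot Pool.Agent.Helper33.Boot

namespace Pool.Agent.Helper33.MS

universe v

lemma cut_of_forest {W : Type v} [Finite W] (H : SimpleGraph W) {e : Sym2 W}
    (he : e ∈ H.edgeSet) (hac : (H.deleteEdges {e}).IsAcyclic) :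
    (∃ y, (H.neighborSet y).ncard ≤ 2) ∨ ∃ f : Sym2 W, ¬ (H.deleteEdges {f}).Connected := by
  classical
  have := Fintype.ofFinite W
  by_cases hc : (H.deleteEdges {e}).Connected
  swap
  · exact Or.inr ⟨e, hc⟩
  left
  have hnt : Nontrivial W := by
    induction e using Sym2.ind with
    | _ a b =>
      rw [SimpleGraph.mem_edgeSet] at he
      exact ⟨a, b, he.ne⟩
  have ht : (H.deleteEdges {e}).IsTree := ⟨hc, hac⟩
  obtain ⟨y, hy⟩ := ht.exists_vert_degree_one_of_nontrivial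
  refine ⟨y, ?_⟩
  have h1 : ((H.deleteEdges {e}).neighborSet y).ncard = 1 := by
    rw [Set.ncard_eq_toFinset_card', ← hy]
    rfl
  have h2 : H.neighborSet y ⊆ (H.deleteEdges {e}).neighborSet y ∪ {z | s(y, z) = e} := by
    intro z hz
    by_cases h : s(y, z) = e
    · exact Or.inr h
    · left
      rw [SimpleGraph.mem_neighborSet, SimpleGraph.deleteEdges_adj]
      exact ⟨hz, h⟩
  have h3 : ({z | s(y, z) = e} : Set W).ncard ≤ 1 := by
    rw [Set.ncard_le_one (Set.toFinite _)]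
    intro a ha b hb
    have h4 : s(y, a) = s(y, b) := by
      rw [Set.mem_ofPred_eq] at ha hb
      rw [ha, hb]
    rw [Sym2.eq_iff] at h4
    rcases h4 with ⟨-, h⟩ | ⟨h, h'⟩
    · exact h
    · rw [h', h]
  calc (H.neighborSet y).ncard
      ≤ ((H.deleteEdges {e}).neighborSet y ∪ {z | s(y, z) = e}).ncard :=
        Set.ncard_le_ncard h2 (Set.toFinite _)
    _ ≤ ((H.deleteEdges {e}).neighborSet y).ncard + ({z | s(y, z) = e} : Set W).ncard :=
        Set.ncard_union_le _ _
    _ ≤ 2 := by omega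

theorem P4 (h1 : GoalP1.{v}) (h2 : GoalP2.{v}) (h3 : GoalP3) : GoalP4.{v} := by
  classical
  intro W _ H hconn hH
  have hW := Fintype.ofFinite W
  by_cases hfor : ∃ e ∈ H.edgeSet, (H.deleteEdges {e}).IsAcyclic
  · obtain ⟨e, he, hac⟩ := hfor
    obtain ⟨K, hK⟩ := uniform_bound H hconn hH (cut_of_forest H he hac)
    refine ⟨K, 1, one_pos, 0, fun J _ => ?_⟩
    rw [one_mul]
    nth_rewrite 1 [← Finset.card_range J]
    rw [← Set.ncard_coe_finset]
    refine Nat.cast_le.2 (Set.ncard_le_ncard ?_ ((Set.finite_lt_nat J).subset fun j hj => hj.1))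
    intro j hj
    refine ⟨Finset.mem_range.1 (Finset.mem_coe.1 hj), fun n _ _ e he => ?_⟩
    rcases Nat.lt_or_ge n 2 with hn | hn
    · rw [Pool.Agent.Helper35.Boot.maxRunTime_eq_zero H (by omega), Nat.cast_zero]
      positivity
    · have h4 : maxRunTime H n ≤ K * extremalNumber n (H.deleteEdges {e}) :=
        Finset.sup_le fun G _ => hK e he n hn G
      exact_mod_cast h4
  push Not at hfor
  have hne : H.edgeSet.Nonempty := by
    rw [← Set.ncard_pos (Set.toFinite _)]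
    omega
  have hmin : ∀ n : ℕ, ∃ e ∈ H.edgeSet, ∀ e' ∈ H.edgeSet,
      extremalNumber n (H.deleteEdges {e}) ≤ extremalNumber n (H.deleteEdges {e'}) := fun n =>
    Set.exists_min_image H.edgeSet (fun e => extremalNumber n (H.deleteEdges {e}))
      (Set.toFinite _) hne
  choose η hη hηm using hmin
  set D : ℝ := (Fintype.card W : ℝ) ^ 2 + 1 with hD
  have hD0 : 0 < D := by positivity
  set b : ℕ → ℝ := fun j => extremalNumber (2 ^ (j + 1)) (H.deleteEdges {η (2 ^ (j + 1))}) with hb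
  have h22 : ∀ j : ℕ, 2 ≤ 2 ^ (j + 1) := fun j => by
    rw [pow_succ]
    have : 1 ≤ 2 ^ j := Nat.one_le_two_pow
    omega
  have hthree : ∀ j : ℕ, (2 : ℝ) ^ (j + 1) ≤ 3 * b j := by
    intro j
    have h4 := le_three_ex (two_edges hH _ (hη (2 ^ (j + 1)))) (h22 j)
    have h5 : ((2 ^ (j + 1) : ℕ) : ℝ) ≤ ((3 * extremalNumber (2 ^ (j + 1))
      (H.deleteEdges {η (2 ^ (j + 1))}) : ℕ) : ℝ) := by exact_mod_cast h4
    push_cast at h5
    exact h5
  have hbpos : ∀ j, 0 < b j := by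
    intro j
    have h4 := hthree j
    have h5 : (0 : ℝ) < 2 ^ (j + 1) := by positivity
    linarith
  have hbmin : ∀ j, ∀ e ∈ H.edgeSet, b j ≤ extremalNumber (2 ^ (j + 1)) (H.deleteEdges {e}) := by
    intro j e he
    exact Nat.cast_le.2 (hηm (2 ^ (j + 1)) e he)
  have hcmp : ∀ e ∈ H.edgeSet, ∀ l m : ℕ, 2 ≤ l → ∀ c : ℝ, (m : ℝ) ≤ c * l → 0 ≤ c →
      (extremalNumber m (H.deleteEdges {e}) : ℝ) ≤
        (D + 2 * c ^ 2) * extremalNumber l (H.deleteEdges {e}) := by
    intro e he l m hl c hc hc0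
    refine (ex_compare (two_edges hH e he) hl m).trans ?_
    have hl0 : (0 : ℝ) < l := by
      have : (2 : ℝ) ≤ l := by exact_mod_cast hl
      linarith
    have h4 : (m : ℝ) / l ≤ c := (div_le_iff₀ hl0).2 hc
    have h5 : ((m : ℝ) / l) ^ 2 ≤ c ^ 2 := pow_le_pow_left₀ (by positivity) h4 2
    apply mul_le_mul_of_nonneg_right _ (Nat.cast_nonneg _)
    rw [hD]
    linarith
  have hA : ∀ j, b (j + 1) ≤ (D + 2 * 2 ^ 2) * b j := by
    intro j
    refine (hbmin (j + 1) _ (hη (2 ^ (j + 1)))).trans ?_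
    refine hcmp _ (hη (2 ^ (j + 1))) (2 ^ (j + 1)) (2 ^ (j + 1 + 1)) (h22 j) 2 ?_ (by norm_num)
    push_cast
    rw [pow_succ (2 : ℝ) (j + 1)]
    linarith
  have hK1 : 1 ≤ Fintype.card W := by
    have : Nonempty W := hconn.nonempty
    exact Fintype.card_pos
  have hg : ∀ j, (2 : ℝ) ^ j * 2 ^ (j / Fintype.card W) ≤ 16 * b j := by
    intro j
    rcases Nat.eq_zero_or_pos (j / Fintype.card W) with h0 | h0
    · rw [h0, pow_zero, mul_one]
      have h4 := hthree j
      rw [pow_succ] at h4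
      have h5 : (0 : ℝ) < 2 ^ j := by positivity
      linarith
    · have h4 := h2 W (H.deleteEdges {η (2 ^ (j + 1))}) (hfor _ (hη _)) (j / Fintype.card W)
        (j + 1) h0 ((Nat.mul_div_le j (Fintype.card W)).trans (Nat.le_succ j))
      rw [pow_succ] at h4
      have h5 : (0 : ℝ) < 2 ^ j * 2 ^ (j / Fintype.card W) := by positivity
      have h6 : (2 : ℝ) ^ j * 2 * 2 ^ (j / Fintype.card W) =
        2 * (2 ^ j * 2 ^ (j / Fintype.card W)) := by ring
      have h7 : (extremalNumber (2 ^ (j + 1)) (H.deleteEdges {η (2 ^ (j + 1))}) : ℝ) = b j := rfl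
      rw [h6, h7] at h4
      have := hbpos j
      linarith
  obtain ⟨C, δ, hC, hδ, J₀, hJ⟩ := h3 b (D + 2 * 2 ^ 2) (Fintype.card W) hK1 hbpos hA hg
  obtain ⟨C₁, hC₁0, hC₁⟩ := h1 W H hH
  refine ⟨C₁ * ((D + 2 * 1 ^ 2) * (C * (D + 2 * 2 ^ 2))), δ, hδ, J₀, fun J hJJ => ?_⟩
  refine (hJ J hJJ).trans ?_
  rw [← Set.ncard_coe_finset]
  refine Nat.cast_le.2 (Set.ncard_le_ncard ?_ ((Set.finite_lt_nat J).subset fun j hj => hj.1))
  · intro j hj
    rw [Finset.mem_coe, Finset.mem_filter] at hj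
    refine ⟨Finset.mem_range.1 hj.1, fun n hn1 hn2 e he => ?_⟩
    have hE : (0 : ℝ) ≤ extremalNumber n (H.deleteEdges {e}) := Nat.cast_nonneg _
    rcases Nat.lt_or_ge n 2 with hn | hn
    · rw [Pool.Agent.Helper35.Boot.maxRunTime_eq_zero H (by omega), Nat.cast_zero]
      positivity
    have hlog : Nat.log 2 n = j := Nat.log_eq_of_pow_le_of_lt_pow hn1 hn2
    have h4 := hC₁ (fun i => η (2 ^ (j - i + 1))) (fun i => hη _) n
    rw [hlog] at h4
    have h5 : ∑ i ∈ Finset.range (j + 1), ((i : ℝ) + 1) * 2 ^ i *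
        extremalNumber (n / 2 ^ i + 1) (H.deleteEdges {η (2 ^ (j - i + 1))}) ≤
        (D + 2 * 1 ^ 2) * (C * b j) := by
      calc _ ≤ ∑ i ∈ Finset.range (j + 1), (D + 2 * 1 ^ 2) *
            (((i : ℝ) + 1) * 2 ^ i * b (j - i)) := by
            apply Finset.sum_le_sum
            intro i hi
            rw [Finset.mem_range] at hi
            have h6 : n / 2 ^ i + 1 ≤ 2 ^ (j - i + 1) := by
              have h7 : n / 2 ^ i < 2 ^ (j - i + 1) := by
                rw [Nat.div_lt_iff_lt_mul (by positivity), ← pow_add]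
                rwa [show j - i + 1 + i = j + 1 by omega]
              omega
            have h7 := hcmp _ (hη (2 ^ (j - i + 1))) (2 ^ (j - i + 1)) (n / 2 ^ i + 1)
              (h22 (j - i)) 1 (by rw [one_mul]; exact_mod_cast h6) (by norm_num)
            have h8 : (0 : ℝ) ≤ ((i : ℝ) + 1) * 2 ^ i := by positivity
            calc _ ≤ ((i : ℝ) + 1) * 2 ^ i * ((D + 2 * 1 ^ 2) * b (j - i)) :=
                  mul_le_mul_of_nonneg_left h7 h8
              _ = _ := by ring
        _ = (D + 2 * 1 ^ 2) * ∑ i ∈ Finset.range (j + 1),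
            (((i : ℝ) + 1) * 2 ^ i * b (j - i)) := by rw [Finset.mul_sum]
        _ ≤ _ := mul_le_mul_of_nonneg_left hj.2 (by positivity)
    have h6 : b j ≤ (D + 2 * 2 ^ 2) * extremalNumber n (H.deleteEdges {e}) := by
      refine (hbmin j e he).trans (hcmp e he n (2 ^ (j + 1)) hn 2 ?_ (by norm_num))
      have h7 : ((2 ^ j : ℕ) : ℝ) ≤ (n : ℝ) := by exact_mod_cast hn1
      push_cast at h7 ⊢
      rw [pow_succ]
      linarith
    calc (maxRunTime H n : ℝ) ≤ C₁ * ((D + 2 * 1 ^ 2) * (C * b j)) :=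
          h4.trans (mul_le_mul_of_nonneg_left h5 hC₁0)
      _ ≤ C₁ * ((D + 2 * 1 ^ 2) * (C * ((D + 2 * 2 ^ 2) *
          extremalNumber n (H.deleteEdges {e})))) := by
          apply mul_le_mul_of_nonneg_left _ hC₁0
          apply mul_le_mul_of_nonneg_left _ (by positivity)
          exact mul_le_mul_of_nonneg_left h6 hC.le
      _ = _ := by ring

end Pool.Agent.Helper33.MS
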