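import Pool.Agent.Helper33.MS.Goals

/-!
# MS-P2: the lower bound for the Turán numbers of graphs with a cycle
-/

set_option autoImplicit false

open Finset SimpleGraph Pool.Agent.Helper33.MS

namespace Pool.Agent.Helper33.MS.PartTwo

universe v

/-- A minimal subgraph which is not acyclic has no bridges. -/
theorem exists_min {W : Type v} [Finite W] (F : SimpleGraph W) (h : ¬ F.IsAcyclic) :
    ∃ F1 ≤ F, (¬ F1.IsAcyclic) ∧
      ∀ a b, F1.Adj a b → (F1.deleteEdges {s(a, b)}).Reachable a b := by
  obtain ⟨F1, hle, hmin⟩ :=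
    Finite.exists_le_minimal (p := fun G : SimpleGraph W => ¬ G.IsAcyclic) h
  refine ⟨F1, hle, hmin.prop, fun a b hab => ?_⟩
  by_contra hr
  have hbr : F1.IsBridge s(a, b) := by rw [isBridge_iff]; exact hr
  have hac : (F1.deleteEdges {s(a, b)}).IsAcyclic := by
    by_contra hn
    have hle' := hmin.le_of_le hn (deleteEdges_le _)
    have := hle' hab
    simp at this
  apply hmin.prop
  intro x c hc
  have hnot := hbr.notMem_edges_of_isCycle hc
  have hq : ∀ e ∈ c.edges, e ∉ ({s(a, b)} : Set (Sym2 W)) := by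
    intro e he he'
    rw [Set.mem_singleton_iff] at he'
    exact hnot (he' ▸ he)
  exact hac (c.toDeleteEdges {s(a, b)} hq) (Walk.IsCycle.toDeleteEdges _ {s(a, b)} hc hq)

open scoped Classical in
/-- A maximal graph without `F1` and with bounded degrees. -/
theorem exists_graph {W : Type v} [Fintype W] (F1 : SimpleGraph W) (hne : F1 ≠ ⊥)
    (hb : ∀ a b, F1.Adj a b → (F1.deleteEdges {s(a, b)}).Reachable a b) (n D : ℕ) :
    ∃ G : SimpleGraph (Fin n), F1.Free G ∧ (∀ v, G.degree v ≤ D) ∧
      ∀ u v, u ≠ v → ¬ G.Adj u v → G.degree u < D → G.degree v < D →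
        ∃ p : G.Walk u v, p.length < Fintype.card W := by
  obtain ⟨G, -, hmax⟩ := Finite.exists_le_maximal
    (p := fun G : SimpleGraph (Fin n) => F1.Free G ∧ ∀ v, G.degree v ≤ D) (a := ⊥)
    ⟨free_bot hne, fun v => by simp⟩
  refine ⟨G, hmax.prop.1, hmax.prop.2, fun u v huv hnadj hu hv => ?_⟩
  have hadj : ∀ x y, (G ⊔ edge u v).Adj x y ↔ G.Adj x y ∨ (s(x, y) = s(u, v) ∧ x ≠ y) := by
    intro x y
    rw [sup_adj, edge_adj]
    simp only [Sym2.eq_iff]
  have hdeg : ∀ w, (G ⊔ edge u v).degree w ≤ D := by
    intro w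
    by_cases hwu : w = u
    · subst hwu
      have h1 : (G ⊔ edge w v).neighborFinset w ⊆ insert v (G.neighborFinset w) := by
        intro x hx
        rw [mem_neighborFinset, hadj] at hx
        rw [mem_insert, mem_neighborFinset]
        rcases hx with hx | ⟨hx, hx'⟩
        · exact Or.inr hx
        · left
          rcases Sym2.eq_iff.1 hx with h | h
          · exact h.2
          · exact absurd h.2.symm hx'
      have h2 := (card_le_card h1).trans (card_insert_le _ _)
      rw [card_neighborFinset_eq_degree, card_neighborFinset_eq_degree] at h2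
      omega
    · by_cases hwv : w = v
      · subst hwv
        have h1 : (G ⊔ edge u w).neighborFinset w ⊆ insert u (G.neighborFinset w) := by
          intro x hx
          rw [mem_neighborFinset, hadj] at hx
          rw [mem_insert, mem_neighborFinset]
          rcases hx with hx | ⟨hx, hx'⟩
          · exact Or.inr hx
          · left
            rcases Sym2.eq_iff.1 hx with h | h
            · exact absurd h.1 hwu
            · exact h.2
        have h2 := (card_le_card h1).trans (card_insert_le _ _)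
        rw [card_neighborFinset_eq_degree, card_neighborFinset_eq_degree] at h2
        omega
      · have h1 : (G ⊔ edge u v).neighborFinset w ⊆ G.neighborFinset w := by
          intro x hx
          rw [mem_neighborFinset, hadj] at hx
          rw [mem_neighborFinset]
          rcases hx with hx | ⟨hx, hx'⟩
          · exact hx
          · rcases Sym2.eq_iff.1 hx with h | h
            · exact absurd h.1 hwu
            · exact absurd h.1 hwv
        have h2 := card_le_card h1
        rw [card_neighborFinset_eq_degree, card_neighborFinset_eq_degree] at h2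
        exact h2.trans (hmax.prop.2 w)
  have hcont : F1 ⊑ (G ⊔ edge u v) := by
    by_contra hn
    have h1 : G ⊔ edge u v ≤ G := hmax.le_of_ge ⟨hn, fun w => by
      refine le_trans (le_of_eq ?_) (hdeg w)
      exact congrArg (fun i => @SimpleGraph.degree _ (G ⊔ edge u v) w i) (Subsingleton.elim _ _)⟩
      le_sup_left
    exact hnadj (h1 ((hadj u v).2 (Or.inr ⟨rfl, huv⟩)))
  obtain ⟨φ⟩ := hcont
  have hinj : Function.Injective φ := φ.injective
  have hφ : ∀ x y, F1.Adj x y → (G ⊔ edge u v).Adj (φ x) (φ y) := fun x y h => φ.toHom.map_adj h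
  obtain ⟨a, b, hab, hs⟩ : ∃ a b, F1.Adj a b ∧ s(φ a, φ b) = s(u, v) := by
    by_contra hn
    push Not at hn
    refine hmax.prop.1 ⟨⟨⟨φ, fun {x y} h => ?_⟩, hinj⟩⟩
    rcases (hadj _ _).1 (hφ x y h) with h1 | h1
    · exact h1
    · exact absurd h1.1 (hn x y h)
  let ψ : F1.deleteEdges {s(a, b)} →g G := ⟨φ, fun {x y} h => by
    rw [deleteEdges_adj] at h
    rcases (hadj _ _).1 (hφ x y h.1) with h1 | h1
    · exact h1
    · exfalso
      apply h.2
      rw [Set.mem_singleton_iff]
      have h2 : s(φ x, φ y) = s(φ a, φ b) := h1.1.trans hs.symm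
      exact Sym2.map.injective hinj (by simpa using h2)⟩
  obtain ⟨p, hp⟩ := (hb a b hab).exists_isPath
  have hlen : (p.map ψ).length < Fintype.card W := by
    rw [Walk.length_map]
    exact hp.length_lt
  rcases Sym2.eq_iff.1 hs with h | h
  · exact ⟨(p.map ψ).copy h.1 h.2, by rw [Walk.length_copy]; exact hlen⟩
  · exact ⟨(p.map ψ).reverse.copy h.2 h.1, by
      rw [Walk.length_copy, Walk.length_reverse]; exact hlen⟩

open scoped Classical in
/-- The ball of radius `r`. -/
noncomputable def ball {n : ℕ} (G : SimpleGraph (Fin n)) (r : ℕ) (u : Fin n) : Finset (Fin n) :=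
  Finset.univ.filter fun v => ∃ p : G.Walk u v, p.length ≤ r

open scoped Classical in
theorem card_ball {n : ℕ} (G : SimpleGraph (Fin n)) (D : ℕ) (hD : ∀ v, G.degree v ≤ D) (r : ℕ) :
    ∀ u, (ball G r u).card ≤ (D + 1) ^ r := by
  induction r with
  | zero =>
    intro u
    have h : ball G 0 u ⊆ {u} := by
      intro x hx
      obtain ⟨p, hp⟩ := (mem_filter.1 hx).2
      rw [mem_singleton]
      exact (Walk.eq_of_length_eq_zero (Nat.le_zero.1 hp)).symm
    simpa using card_le_card h
  | succ r ih =>
    intro u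
    have h : ball G (r + 1) u ⊆ (insert u (G.neighborFinset u)).biUnion (ball G r) := by
      intro x hx
      obtain ⟨p, hp⟩ := (mem_filter.1 hx).2
      rw [mem_biUnion]
      cases p with
      | nil => exact ⟨u, mem_insert_self _ _, mem_filter.2 ⟨mem_univ _, Walk.nil, Nat.zero_le _⟩⟩
      | cons h q =>
        rw [Walk.length_cons] at hp
        exact ⟨_, mem_insert_of_mem ((G.mem_neighborFinset _ _).2 h),
          mem_filter.2 ⟨mem_univ _, q, by omega⟩⟩
    have h1 : (insert u (G.neighborFinset u)).card ≤ D + 1 := by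
      refine (card_insert_le _ _).trans ?_
      rw [card_neighborFinset_eq_degree]
      have := hD u
      omega
    calc (ball G (r + 1) u).card ≤ _ := card_le_card h
      _ ≤ ∑ x ∈ insert u (G.neighborFinset u), (ball G r x).card := card_biUnion_le
      _ ≤ ∑ x ∈ insert u (G.neighborFinset u), (D + 1) ^ r := sum_le_sum fun x _ => ih x
      _ = (insert u (G.neighborFinset u)).card * (D + 1) ^ r := by rw [sum_const, smul_eq_mul]
      _ ≤ (D + 1) * (D + 1) ^ r := Nat.mul_le_mul_right _ h1
      _ = (D + 1) ^ (r + 1) := by rw [pow_succ]; ring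

open scoped Classical in
/-- **MS-P2.** -/
theorem P2 : GoalP2.{v} := by
  intro W _ F hF q j hq hj
  obtain ⟨F1, hle, hF1, hb⟩ := exists_min F hF
  have hne : F1 ≠ ⊥ := by
    rintro rfl
    exact hF1 isAcyclic_bot
  have hk : 2 ≤ Fintype.card W := by
    obtain ⟨a, b, hab⟩ := ne_bot_iff_exists_adj.1 hne
    exact Fintype.one_lt_card_iff.2 ⟨a, b, hab.ne⟩
  obtain ⟨G, hfree, hdeg, hclose⟩ := exists_graph F1 hne hb (2 ^ j) (2 ^ q - 1)
  have hpow : 2 ≤ 2 ^ q := by
    calc 2 = 2 ^ 1 := rfl
      _ ≤ 2 ^ q := Nat.pow_le_pow_right (by norm_num) hq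
  set D := 2 ^ q - 1 with hDdef
  have hD1 : D + 1 = 2 ^ q := by omega
  set S : Finset (Fin (2 ^ j)) := Finset.univ.filter fun v => G.degree v < D with hS
  have hScard : 2 * S.card ≤ 2 ^ j := by
    rcases S.eq_empty_or_nonempty with h0 | ⟨u, hu⟩
    · rw [h0]; simp
    · have hu' := (mem_filter.1 hu).2
      have hsub : S ⊆ ball G (Fintype.card W - 1) u := by
        intro v hv
        have hv' := (mem_filter.1 hv).2
        refine mem_filter.2 ⟨mem_univ _, ?_⟩
        by_cases huv : u = v
        · subst huv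
          exact ⟨Walk.nil, Nat.zero_le _⟩
        · by_cases hadj : G.Adj u v
          · exact ⟨Walk.cons hadj Walk.nil, by
              rw [Walk.length_cons, Walk.length_nil]; omega⟩
          · obtain ⟨p, hp⟩ := hclose u v huv hadj hu' hv'
            exact ⟨p, by omega⟩
      have h1 := (card_le_card hsub).trans (card_ball G D hdeg _ u)
      rw [hD1, ← pow_mul] at h1
      obtain ⟨k, hk'⟩ : ∃ k, Fintype.card W = k + 2 := ⟨_, (Nat.sub_add_cancel hk).symm⟩
      rw [hk'] at h1 hj
      have h2 : q * (k + 2 - 1) + 1 ≤ j := by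
        have h3 : k + 2 - 1 = k + 1 := rfl
        rw [h3]
        nlinarith
      calc 2 * S.card ≤ 2 * 2 ^ (q * (k + 2 - 1)) := Nat.mul_le_mul_left _ h1
        _ = 2 ^ (q * (k + 2 - 1) + 1) := by rw [pow_succ]; ring
        _ ≤ 2 ^ j := Nat.pow_le_pow_right (by norm_num) h2
  have hsum : (2 ^ j - S.card) * D ≤ 2 * G.edgeFinset.card := by
    rw [← sum_degrees_eq_twice_card_edges]
    have h1 : (Finset.univ \ S).card = 2 ^ j - S.card := by
      rw [card_sdiff_of_subset (subset_univ _), card_univ, Fintype.card_fin]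
    calc (2 ^ j - S.card) * D = ∑ v ∈ Finset.univ \ S, D := by
          rw [sum_const, h1, smul_eq_mul]
      _ ≤ ∑ v ∈ Finset.univ \ S, G.degree v := by
          refine sum_le_sum fun v hv => ?_
          have h2 := (mem_sdiff.1 hv).2
          by_contra h3
          exact h2 (mem_filter.2 ⟨mem_univ _, by omega⟩)
      _ ≤ ∑ v, G.degree v := sum_le_sum_of_subset (sdiff_subset)
  have hfree' : F.Free G := fun h => hfree (h.mono_left hle)
  have hex : G.edgeFinset.card ≤ extremalNumber (2 ^ j) F := by
    have := card_edgeFinset_le_extremalNumber hfree'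
    rwa [Fintype.card_fin] at this
  have hfin : 2 ^ j * 2 ^ q ≤ 8 * G.edgeFinset.card := by
    have h1 : 2 ^ j ≤ 2 * (2 ^ j - S.card) := by omega
    have h2 : 2 ^ q ≤ 2 * D := by omega
    calc 2 ^ j * 2 ^ q ≤ (2 * (2 ^ j - S.card)) * (2 * D) := Nat.mul_le_mul h1 h2
      _ = 4 * ((2 ^ j - S.card) * D) := by ring
      _ ≤ 4 * (2 * G.edgeFinset.card) := Nat.mul_le_mul_left _ hsum
      _ = 8 * G.edgeFinset.card := by ring
  have hfin' := hfin.trans (Nat.mul_le_mul_left 8 hex)
  exact_mod_cast hfin'

end Pool.Agent.Helper33.MS.PartTwo
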